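import Pool.Agent.V7H62.DH.Spec

/-!
# Truncated multiple zeta values are linearly independent over the polynomials in `N`
-/

set_option autoImplicit false

open Filter Finset Polynomial

namespace Pool.Agent.V7H63.DH

open Pool.Agent.V7H62.DH

/-- The shift of a polynomial. -/
noncomputable def sh : ℝ[X] →+* ℝ[X] := Polynomial.compRingHom (X + 1)

theorem sh_eval (P : ℝ[X]) (x : ℝ) : (sh P).eval x = P.eval (x + 1) := by
  simp [sh, eval_comp]

theorem sh_C (c : ℝ) : sh (C c) = C c := by simp [sh]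

theorem sh_ne {P : ℝ[X]} (hP : P ≠ 0) : sh P ≠ 0 := by
  intro h
  apply hP
  apply Polynomial.funext
  intro x
  have := sh_eval P (x - 1)
  rw [h] at this
  simp at this
  simpa using this.symm

theorem zero_of_nat {Q : ℝ[X]} (N : ℕ) (h : ∀ k : ℕ, Q.eval ((N + k : ℕ) : ℝ) = 0) : Q = 0 := by
  apply Polynomial.eq_zero_of_infinite_isRoot
  refine Set.infinite_of_injective_forall_mem (f := fun k : ℕ => ((N + k : ℕ) : ℝ)) ?_ ?_
  · intro a b hab
    have hab' : ((N + a : ℕ) : ℝ) = ((N + b : ℕ) : ℝ) := hab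
    have : N + a = N + b := by exact_mod_cast hab'
    omega
  · intro k
    exact h k

theorem ev_ne {Q : ℝ[X]} (hQ : Q ≠ 0) : ∃ N : ℕ, ∀ n ≥ N, Q.eval (n : ℝ) ≠ 0 := by
  by_contra hcon
  push Not at hcon
  apply hQ
  apply Polynomial.eq_zero_of_infinite_isRoot
  have h1 : {n : ℕ | Q.eval (n : ℝ) = 0}.Infinite := by
    rw [← Nat.frequently_atTop_iff_infinite]
    exact Filter.frequently_atTop.2 fun N => by
      obtain ⟨n, hn, h⟩ := hcon N
      exact ⟨n, hn, h⟩
  refine (h1.image (Nat.cast_injective (R := ℝ)).injOn).mono ?_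
  rintro _ ⟨n, hn, rfl⟩
  exact hn

theorem const_of_periodic {P Q : ℝ[X]} (hQ : Q ≠ 0) (h : Q * sh P = sh Q * P) :
    ∃ c : ℝ, P = C c * Q := by
  obtain ⟨N, hN⟩ := ev_ne hQ
  refine ⟨P.eval (N : ℝ) / Q.eval (N : ℝ), ?_⟩
  have key : ∀ k : ℕ, P.eval ((N + k : ℕ) : ℝ) =
      (P.eval (N : ℝ) / Q.eval (N : ℝ)) * Q.eval ((N + k : ℕ) : ℝ) := by
    intro k
    induction k with
    | zero =>
      have := hN N le_rfl
      simp only [add_zero]
      field_simp
    | succ k ih =>
      have h1 := congrArg (eval ((N + k : ℕ) : ℝ)) h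
      rw [eval_mul, eval_mul, sh_eval, sh_eval, ih] at h1
      have h2 := hN (N + k) (by omega)
      have h3 : ((N + (k + 1) : ℕ) : ℝ) = ((N + k : ℕ) : ℝ) + 1 := by push_cast; ring
      rw [h3]
      apply mul_left_cancel₀ h2
      rw [h1]
      ring
  rw [← sub_eq_zero]
  apply zero_of_nat N
  intro k
  rw [eval_sub, eval_mul, eval_C, key k, sub_self]

/-- **The pole lemma.** -/
theorem pole {M : ℕ} {P0 Pv : ℝ[X]} (h0 : P0 ≠ 0) (c : ℕ → ℝ)
    (h : P0 * ((X + 1) ^ M * sh Pv) - (X + 1) ^ M * sh P0 * Pv +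
      P0 * sh P0 * ∑ n ∈ Icc 1 M, C (c n) * (X + 1) ^ (M - n) = 0) :
    ∀ n ∈ Icc 1 M, c n = 0 := by
  classical
  obtain ⟨S, hS⟩ : ∃ S : ℝ[X], S = ∑ n ∈ Icc 1 M, C (c n) * (X + 1) ^ (M - n) := ⟨_, rfl⟩
  rw [← hS] at h
  obtain ⟨g, hg⟩ : ∃ g : ℝ[X], g = EuclideanDomain.gcd Pv P0 := ⟨_, rfl⟩
  have hg0 : g ≠ 0 := by
    rw [hg]
    intro hh
    exact h0 (EuclideanDomain.gcd_eq_zero_iff.1 hh).2
  obtain ⟨p, hp⟩ : g ∣ Pv := hg ▸ EuclideanDomain.gcd_dvd_left _ _
  obtain ⟨q, hq⟩ : g ∣ P0 := hg ▸ EuclideanDomain.gcd_dvd_right _ _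
  have hc : IsCoprime p q := by
    have h1 := EuclideanDomain.gcd_eq_gcd_ab Pv P0
    rw [← hg] at h1
    refine ⟨EuclideanDomain.gcdA Pv P0, EuclideanDomain.gcdB Pv P0, ?_⟩
    apply mul_left_cancel₀ hg0
    calc g * (EuclideanDomain.gcdA Pv P0 * p + EuclideanDomain.gcdB Pv P0 * q)
        = (g * p) * EuclideanDomain.gcdA Pv P0 + (g * q) * EuclideanDomain.gcdB Pv P0 := by ring
      _ = Pv * EuclideanDomain.gcdA Pv P0 + P0 * EuclideanDomain.gcdB Pv P0 := by
          rw [← hp, ← hq]
      _ = g * 1 := by rw [← h1, mul_one]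
  have hq0 : q ≠ 0 := by
    rintro rfl
    exact h0 (by rw [hq, mul_zero])
  have hE : (X + 1) ^ M * (q * sh p - sh q * p) + q * sh q * S = 0 := by
    have h1 : g * sh g ≠ 0 := mul_ne_zero hg0 (sh_ne hg0)
    apply mul_left_cancel₀ h1
    rw [mul_zero, ← h, hp, hq, map_mul, map_mul]
    ring
  have d1 : q ∣ (X + 1) ^ M * sh q := by
    apply hc.symm.dvd_of_dvd_mul_right
    refine ⟨(X + 1) ^ M * sh p + sh q * S, ?_⟩
    linear_combination -hE
  have d2 : sh q ∣ (X + 1) ^ M * q := by
    have hc2 : IsCoprime (sh q) (sh p) := (hc.symm).map sh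
    apply hc2.dvd_of_dvd_mul_right
    refine ⟨(X + 1) ^ M * p - q * S, ?_⟩
    linear_combination hE
  have e1 : q.eval 0 ≠ 0 := by
    intro hh
    apply hq0
    apply zero_of_nat 0
    intro k
    induction k with
    | zero => simpa using hh
    | succ k ih =>
      obtain ⟨r, hr⟩ := d1
      have h1 := congrArg (eval ((0 + k : ℕ) : ℝ)) hr
      rw [eval_mul, eval_mul, ih, zero_mul, sh_eval] at h1
      have h2 : ((0 + (k + 1) : ℕ) : ℝ) = ((0 + k : ℕ) : ℝ) + 1 := by push_cast; ring
      rw [h2]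
      rcases mul_eq_zero.1 h1 with h3 | h3
      · exfalso
        have h4 : (0 : ℝ) < ((0 + k : ℕ) : ℝ) + 1 := by positivity
        simp only [eval_pow, eval_add, eval_X, eval_one] at h3
        exact (pow_ne_zero M h4.ne') h3
      · exact h3
  have e2 : q.eval (-1) ≠ 0 := by
    intro hh
    have key : ∀ k : ℕ, q.eval (-((k : ℝ) + 1)) = 0 := by
      intro k
      induction k with
      | zero => simpa using hh
      | succ k ih =>
        obtain ⟨r, hr⟩ := d2
        have h1 := congrArg (eval (-((k : ℝ) + 2))) hr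
        have h2 : -((k : ℝ) + 2) + 1 = -((k : ℝ) + 1) := by ring
        rw [eval_mul, eval_mul, sh_eval, h2, ih, zero_mul] at h1
        have h3 : -(((k + 1 : ℕ) : ℝ) + 1) = -((k : ℝ) + 2) := by push_cast; ring
        rw [h3]
        rcases mul_eq_zero.1 h1 with h4 | h4
        · exfalso
          simp only [eval_pow, eval_add, eval_X, eval_one, h2] at h4
          have h5 : -((k : ℝ) + 1) ≠ 0 := by
            have : (0 : ℝ) < (k : ℝ) + 1 := by positivity
            exact neg_ne_zero.2 this.ne'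
          exact (pow_ne_zero M h5) h4
        · exact h4
    apply hq0
    apply Polynomial.eq_zero_of_infinite_isRoot
    refine Set.infinite_of_injective_forall_mem (f := fun k : ℕ => -((k : ℝ) + 1)) ?_ ?_
    · intro a b hab
      have h1 : (a : ℝ) = b := by
        have : -((a : ℝ) + 1) = -((b : ℝ) + 1) := hab
        linarith
      exact_mod_cast h1
    · intro k
      exact key k
  have hpr : Prime (X + 1 : ℝ[X]) := by
    have := Polynomial.prime_X_sub_C (-1 : ℝ)
    simpa using this
  have n1 : ¬ (X + 1 : ℝ[X]) ∣ q := by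
    rintro ⟨r, hr⟩
    apply e2
    rw [hr]
    simp
  have n2 : ¬ (X + 1 : ℝ[X]) ∣ sh q := by
    rintro ⟨r, hr⟩
    apply e1
    have h1 := sh_eval q (-1)
    rw [hr] at h1
    simp at h1
    exact h1.symm
  have n3 : ¬ (X + 1 : ℝ[X]) ∣ q * sh q := fun hh => (hpr.dvd_or_dvd hh).elim n1 n2
  have hdS : (X + 1) ^ M ∣ S := by
    refine hpr.pow_dvd_of_dvd_mul_left M n3 ⟨-(q * sh p - sh q * p), ?_⟩
    linear_combination hE
  -- comparison of the coefficients
  obtain ⟨r, hr⟩ := hdS
  have h1 : (X : ℝ[X]) ^ M ∣ ∑ n ∈ Icc 1 M, C (c n) * X ^ (M - n) := by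
    refine ⟨r.comp (X - 1), ?_⟩
    have h2 := congrArg (Polynomial.compRingHom (X - 1 : ℝ[X])) (hS.symm.trans hr)
    rw [map_sum, map_mul, map_pow] at h2
    have h3 : Polynomial.compRingHom (X - 1 : ℝ[X]) (X + 1) = X := by simp
    rw [h3] at h2
    have h4 : Polynomial.compRingHom (X - 1 : ℝ[X]) r = r.comp (X - 1) := rfl
    rw [← h4, ← h2]
    refine Finset.sum_congr rfl fun n _ => ?_
    rw [map_mul, map_pow, h3]
    simp
  rw [Polynomial.X_pow_dvd_iff] at h1
  intro n hn
  rw [mem_Icc] at hn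
  have h3 := h1 (M - n) (by omega)
  rw [Polynomial.finset_sum_coeff, Finset.sum_eq_single n] at h3
  · simpa using h3
  · intro m hm hmn
    rw [mem_Icc] at hm
    rw [coeff_C_mul, coeff_X_pow, if_neg (by omega), mul_zero]
  · intro hh
    exact absurd (mem_Icc.2 hn) hh

/-! ### Words -/

/-- The words of length at most `d` with letters `1, ..., M`. -/
def W (M : ℕ) : ℕ → Finset (List ℕ)
  | 0 => {[]}
  | d + 1 => insert [] ((Icc 1 M ×ˢ W M d).image fun x => x.1 :: x.2)

theorem mem_W {M d : ℕ} {w : List ℕ} : w ∈ W M d ↔ w.length ≤ d ∧ ∀ n ∈ w, n ∈ Icc 1 M := by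
  induction d generalizing w with
  | zero =>
    rw [W, mem_singleton]
    constructor
    · rintro rfl
      simp
    · rintro ⟨h, -⟩
      exact List.length_eq_zero_iff.1 (by omega)
  | succ d ih =>
    rw [W, mem_insert, mem_image]
    constructor
    · rintro (rfl | ⟨⟨n, v⟩, h, rfl⟩)
      · simp
      · rw [mem_product] at h
        have h2 := ih.1 h.2
        refine ⟨by simpa using h2.1, ?_⟩
        intro m hm
        rcases List.mem_cons.1 hm with rfl | hm
        · exact h.1
        · exact h2.2 m hm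
    · rintro ⟨h1, h2⟩
      cases w with
      | nil => exact Or.inl rfl
      | cons n v =>
        refine Or.inr ⟨(n, v), ?_, rfl⟩
        rw [mem_product]
        refine ⟨h2 n (by simp), ih.2 ⟨by simpa using h1, fun m hm => h2 m (by simp [hm])⟩⟩

theorem sum_W (M d : ℕ) (F : List ℕ → ℝ) : ∑ w ∈ W M (d + 1), F w =
    F [] + ∑ v ∈ W M d, ∑ n ∈ Icc 1 M, F (n :: v) := by
  rw [W, sum_insert, sum_image, sum_product_right]
  · rintro ⟨n, v⟩ _ ⟨m, u⟩ _ h
    simp only [List.cons.injEq] at h
    exact Prod.ext h.1 h.2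
  · rw [mem_image]
    rintro ⟨x, _, h⟩
    simp at h

theorem W_mono {M d e : ℕ} (h : d ≤ e) : W M d ⊆ W M e := by
  intro w hw
  rw [mem_W] at hw ⊢
  exact ⟨hw.1.trans h, hw.2⟩

/-- The coefficients of `(N + 1) ^ M` times the shifted combination. -/
noncomputable def stp (M : ℕ) (P : List ℕ → ℝ[X]) (w : List ℕ) : ℝ[X] :=
  (X + 1) ^ M * sh (P w) + ∑ n ∈ Icc 1 M, (X + 1) ^ (M - n) * sh (P (n :: w))

theorem z_nil (N : ℕ) : z [] N = 1 := by rw [z]

theorem z_succ (n : ℕ) (w : List ℕ) (N : ℕ) :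
    z (n :: w) (N + 1) = z (n :: w) N + z w N / ((N : ℝ) + 1) ^ n := by
  rw [z, z, sum_range_succ]

theorem shift_eq {M d : ℕ} {P : List ℕ → ℝ[X]} (hP : ∀ w, w ∉ W M (d + 1) → P w = 0) (N : ℕ) :
    ((N : ℝ) + 1) ^ M * ∑ w ∈ W M (d + 1), (P w).eval ((N + 1 : ℕ) : ℝ) * z w (N + 1) =
      ∑ w ∈ W M (d + 1), (stp M P w).eval (N : ℝ) * z w N := by
  have hc : ((N + 1 : ℕ) : ℝ) = (N : ℝ) + 1 := by push_cast; ring
  have hN : ((N : ℝ) + 1) ≠ 0 := by positivity
  rw [hc]
  have h1 : ∑ w ∈ W M (d + 1), (stp M P w).eval (N : ℝ) * z w N =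
      ∑ w ∈ W M (d + 1), ((N : ℝ) + 1) ^ M * (P w).eval ((N : ℝ) + 1) * z w N +
      ∑ v ∈ W M d, ∑ n ∈ Icc 1 M,
        ((N : ℝ) + 1) ^ (M - n) * (P (n :: v)).eval ((N : ℝ) + 1) * z v N := by
    rw [Finset.sum_subset (W_mono (Nat.le_succ d)) (f := fun v => ∑ n ∈ Icc 1 M,
        ((N : ℝ) + 1) ^ (M - n) * (P (n :: v)).eval ((N : ℝ) + 1) * z v N), ← sum_add_distrib]
    · refine Finset.sum_congr rfl fun w _ => ?_
      rw [stp, eval_add, eval_mul, eval_pow, sh_eval, eval_finset_sum, add_mul, sum_mul]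
      simp only [eval_add, eval_X, eval_one, eval_mul, eval_pow, sh_eval]
    · intro v hv hv'
      refine Finset.sum_eq_zero fun n hn => ?_
      rw [hP (n :: v), eval_zero, mul_zero, zero_mul]
      intro hh
      apply hv'
      rw [mem_W] at hh ⊢
      exact ⟨by simpa using hh.1, fun m hm => hh.2 m (by simp [hm])⟩
  rw [h1, sum_W, sum_W, mul_add, mul_sum, z_nil, z_nil, add_assoc, ← sum_add_distrib]
  congr 1
  · ring
  · refine Finset.sum_congr rfl fun v _ => ?_
    rw [mul_sum, ← sum_add_distrib]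
    refine Finset.sum_congr rfl fun n hn => ?_
    rw [mem_Icc] at hn
    rw [z_succ]
    have h2 : ((N : ℝ) + 1) ^ M = ((N : ℝ) + 1) ^ (M - n) * ((N : ℝ) + 1) ^ n := by
      rw [← pow_add, Nat.sub_add_cancel hn.2]
    rw [h2]
    field_simp

/-- The main induction. -/
theorem indep (M : ℕ) : ∀ (d : ℕ) (P : List ℕ → ℝ[X]), (∀ w, w ∉ W M d → P w = 0) →
    (∀ᶠ N : ℕ in atTop, ∑ w ∈ W M d, (P w).eval (N : ℝ) * z w N = 0) → ∀ w, P w = 0 := by
  classical
  intro d
  induction d with
  | zero =>
    intro P hP h w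
    by_cases hw : w ∈ W M 0
    · rw [W, mem_singleton] at hw
      subst hw
      by_contra h0
      obtain ⟨N, hN⟩ := ev_ne h0
      obtain ⟨N', hN'⟩ := eventually_atTop.1 h
      have h1 := hN' (max N N') (le_max_right _ _)
      rw [W, sum_singleton, z_nil, mul_one] at h1
      exact hN _ (le_max_left _ _) h1
    · exact hP w hw
  | succ d ih =>
    intro P
    obtain ⟨t, ht⟩ : ∃ t, t = ((W M (d + 1) \ W M d).filter fun w => P w ≠ 0).card := ⟨_, rfl⟩
    induction t using Nat.strong_induction_on generalizing P with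
    | _ t iht =>
      intro hP h
      rcases ((W M (d + 1) \ W M d).filter fun w => P w ≠ 0).eq_empty_or_nonempty with he | ⟨w0, hw0⟩
      · have hP' : ∀ w, w ∉ W M d → P w = 0 := by
          intro w hw
          by_cases hw' : w ∈ W M (d + 1)
          · by_contra hne
            have : w ∈ ((W M (d + 1) \ W M d).filter fun w => P w ≠ 0) :=
              mem_filter.2 ⟨Finset.mem_sdiff.2 ⟨hw', hw⟩, hne⟩
            rw [he] at this
            simp at this
          · exact hP w hw'
        apply ih P hP'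
        filter_upwards [h] with N hN
        rw [← hN]
        apply Finset.sum_subset (W_mono (Nat.le_succ d))
        intro w _ hw
        rw [hP' w hw, eval_zero, zero_mul]
      · exfalso
        rw [mem_filter, Finset.mem_sdiff] at hw0
        obtain ⟨⟨hw1, hw2⟩, hw3⟩ := hw0
        -- the relation without `w0`
        obtain ⟨Q, hQ⟩ : ∃ Q : List ℕ → ℝ[X], Q = fun w =>
          P w0 * stp M P w - (X + 1) ^ M * sh (P w0) * P w := ⟨_, rfl⟩
        have htail : ∀ w, w ∉ W M d → ∀ n, P (n :: w) = 0 := by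
          intro w hw n
          apply hP
          intro hh
          apply hw
          rw [mem_W] at hh ⊢
          exact ⟨by simpa using hh.1, fun m hm => hh.2 m (by simp [hm])⟩
        have hQtop : ∀ w, w ∉ W M d → Q w = (X + 1) ^ M * (P w0 * sh (P w) - sh (P w0) * P w) := by
          intro w hw
          rw [hQ]
          simp only
          have : stp M P w = (X + 1) ^ M * sh (P w) := by
            rw [stp, Finset.sum_eq_zero, add_zero]
            intro n _
            rw [htail w hw n, map_zero, mul_zero]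
          rw [this]
          ring
        have hQ0 : ∀ w, w ∉ W M (d + 1) → Q w = 0 := by
          intro w hw
          rw [hQtop w fun hh => hw (W_mono (Nat.le_succ d) hh), hP w hw, map_zero]
          ring
        have hQrel : ∀ᶠ N : ℕ in atTop, ∑ w ∈ W M (d + 1), (Q w).eval (N : ℝ) * z w N = 0 := by
          have h' : ∀ᶠ N : ℕ in atTop,
              ∑ w ∈ W M (d + 1), (P w).eval ((N + 1 : ℕ) : ℝ) * z w (N + 1) = 0 := by
            obtain ⟨N0, hN0⟩ := eventually_atTop.1 h
            exact eventually_atTop.2 ⟨N0, fun N hN => hN0 (N + 1) (by omega)⟩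
          filter_upwards [h, h'] with N h1 h2
          have h3 := shift_eq hP N
          rw [h2, mul_zero] at h3
          have h4 : ∑ w ∈ W M (d + 1), (Q w).eval (N : ℝ) * z w N =
              (P w0).eval (N : ℝ) * ∑ w ∈ W M (d + 1), (stp M P w).eval (N : ℝ) * z w N -
              ((X + 1) ^ M * sh (P w0)).eval (N : ℝ) *
                ∑ w ∈ W M (d + 1), (P w).eval (N : ℝ) * z w N := by
            rw [mul_sum, mul_sum, ← sum_sub_distrib]
            refine Finset.sum_congr rfl fun w _ => ?_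
            rw [hQ]
            simp only [eval_sub, eval_mul]
            ring
          rw [h4, ← h3, h1]
          ring
        have hcard : ((W M (d + 1) \ W M d).filter fun w => Q w ≠ 0).card < t := by
          rw [ht]
          apply Finset.card_lt_card
          rw [Finset.ssubset_iff_of_subset]
          · refine ⟨w0, mem_filter.2 ⟨Finset.mem_sdiff.2 ⟨hw1, hw2⟩, hw3⟩, ?_⟩
            rw [mem_filter]
            rintro ⟨-, hh⟩
            apply hh
            rw [hQtop w0 hw2]
            ring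
          · intro w hw
            rw [mem_filter, Finset.mem_sdiff] at hw ⊢
            refine ⟨hw.1, fun hh => hw.2 ?_⟩
            rw [hQtop w hw.1.2, hh, map_zero]
            ring
        have hall := iht _ hcard Q rfl hQ0 hQrel
        -- the top coefficients are constant multiples of one of them
        have hX : ((X + 1 : ℝ[X]) ^ M) ≠ 0 := by
          apply pow_ne_zero
          exact (Polynomial.monic_X_add_C (1 : ℝ)).ne_zero
        have hconst : ∀ w, w ∉ W M d → ∃ c : ℝ, P w = C c * P w0 := by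
          intro w hw
          apply const_of_periodic hw3
          have h1 := hall w
          rw [hQtop w hw] at h1
          rcases mul_eq_zero.1 h1 with h2 | h2
          · exact absurd h2 hX
          · exact sub_eq_zero.1 h2
        -- the word `v`
        obtain ⟨n0, v, rfl⟩ : ∃ n0 v, w0 = n0 :: v := by
          cases w0 with
          | nil => exact absurd (mem_W.2 ⟨by simp, by simp⟩) hw2
          | cons n v => exact ⟨n, v, rfl⟩
        have hw1' := mem_W.1 hw1
        have hlen : d < (n0 :: v).length := by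
          by_contra hcon
          exact hw2 (mem_W.2 ⟨by omega, hw1'.2⟩)
        have hnv : ∀ n, n :: v ∉ W M d := by
          intro n hh
          have h1 := (mem_W.1 hh).1
          simp only [List.length_cons] at h1 hlen
          omega
        choose c hc using fun n => hconst (n :: v) (hnv n)
        have h1 := hall v
        rw [hQ] at h1
        have h2 : P (n0 :: v) * ((X + 1) ^ M * sh (P v)) - (X + 1) ^ M * sh (P (n0 :: v)) * P v +
            P (n0 :: v) * sh (P (n0 :: v)) * ∑ n ∈ Icc 1 M, C (c n) * (X + 1) ^ (M - n) = 0 := by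
          rw [← h1]
          simp only [stp]
          have h3 : ∑ n ∈ Icc 1 M, (X + 1 : ℝ[X]) ^ (M - n) * sh (P (n :: v)) =
              sh (P (n0 :: v)) * ∑ n ∈ Icc 1 M, C (c n) * (X + 1) ^ (M - n) := by
            rw [mul_sum]
            refine Finset.sum_congr rfl fun n _ => ?_
            conv_lhs => rw [hc n]
            rw [map_mul, sh_C]
            ring
          rw [h3]
          ring
        have h4 := pole hw3 c h2 n0 (hw1'.2 n0 (by simp))
        apply hw3
        rw [hc n0, h4, C_0, zero_mul]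

theorem t_IND : S_IND := by
  classical
  intro S hS P h
  obtain ⟨M, hM⟩ : ∃ M : ℕ, ∀ w ∈ S, ∀ n ∈ w, n ≤ M := by
    refine ⟨∑ w ∈ S, w.sum, fun w hw n hn => ?_⟩
    exact (List.le_sum_of_mem hn).trans
      (Finset.single_le_sum (f := fun w : List ℕ => w.sum) (fun _ _ => Nat.zero_le _) hw)
  obtain ⟨d, hd⟩ : ∃ d : ℕ, ∀ w ∈ S, w.length ≤ d :=
    ⟨∑ w ∈ S, w.length, fun w hw => Finset.single_le_sum (f := fun w : List ℕ => w.length)
      (fun _ _ => Nat.zero_le _) hw⟩
  have hSW : S ⊆ W M d := by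
    intro w hw
    rw [mem_W]
    exact ⟨hd w hw, fun n hn => mem_Icc.2 ⟨hS w hw n hn, hM w hw n hn⟩⟩
  have h1 := indep M d (fun w => if w ∈ S then P w else 0)
    (fun w hw => if_neg fun hh => hw (hSW hh)) (by
      filter_upwards [h] with N hN
      rw [← hN, ← Finset.sum_subset hSW (f := fun w =>
        (if w ∈ S then P w else 0).eval (N : ℝ) * z w N)]
      · refine Finset.sum_congr rfl fun w hw => ?_
        simp only [if_pos hw]
      · intro w _ hw
        simp only [if_neg hw, eval_zero, zero_mul])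
  intro w hw
  have h2 := h1 w
  simpa [hw] using h2

end Pool.Agent.V7H63.DH
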