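import Pool.Agent.V7H62.DH.Spec2

/-!
# The tails are linearly independent over the polynomials in `N`
-/

set_option autoImplicit false

open Filter Finset Polynomial

namespace Pool.Agent.V7H63.DH

open Pool.Agent.V7H62.DH

theorem t_INDT : S_INDT := by
  classical
  intro hI hT S hS P h
  by_contra hcon
  push Not at hcon
  obtain ⟨w1, hw1, hw1'⟩ := hcon
  obtain ⟨S', hS'⟩ : ∃ S' : Finset (List ℕ), S' = S.filter fun w => P w ≠ 0 := ⟨_, rfl⟩
  have hSS : ∀ w ∈ S', w ∈ S ∧ P w ≠ 0 := by
    intro w hw
    rw [hS', mem_filter] at hw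
    exact hw
  have hne : S'.Nonempty := ⟨w1, by rw [hS', mem_filter]; exact ⟨hw1, hw1'⟩⟩
  obtain ⟨w0, hw0, hmax⟩ := Finset.exists_max_image S' List.length hne
  have hT' : ∀ w, ∃ (T : Finset (List ℕ)) (c : List ℕ → ℝ), w ∈ S →
      (∀ v ∈ T, v.length < w.length ∧ ∀ n ∈ v, 1 ≤ n) ∧
      ∀ N, t w N = (-1) ^ w.length * z w.reverse N + ∑ v ∈ T, c v * z v N := by
    intro w
    by_cases hw : w ∈ S
    · obtain ⟨T, c, h1, h2⟩ := hT w (hS w hw)
      exact ⟨T, c, fun _ => ⟨h1, h2⟩⟩
    · exact ⟨∅, 0, fun hh => absurd hh hw⟩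
  choose T c hTc using hT'
  obtain ⟨U, hU⟩ : ∃ U : Finset (List ℕ), U = S'.image List.reverse ∪ S'.biUnion T := ⟨_, rfl⟩
  obtain ⟨R, hR⟩ : ∃ R : List ℕ → ℝ[X], R = fun u => ∑ w ∈ S',
      ((if w.reverse = u then C ((-1 : ℝ) ^ w.length) * P w else 0) +
        (if u ∈ T w then C (c w u) * P w else 0)) := ⟨_, rfl⟩
  have hR0 : ∀ u ∈ U, R u = 0 := by
    apply hI U ?_ R ?_
    · intro u hu n hn
      rw [hU] at hu
      rcases mem_union.1 hu with hu | hu
      · obtain ⟨w, hw, rfl⟩ := mem_image.1 hu
        exact (hS w (hSS w hw).1).1 n (List.mem_reverse.1 hn)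
      · obtain ⟨w, hw, hu⟩ := mem_biUnion.1 hu
        exact ((hTc w (hSS w hw).1).1 u hu).2 n hn
    · filter_upwards [h] with N hN
      have key : ∑ u ∈ U, (R u).eval (N : ℝ) * z u N = ∑ w ∈ S', (P w).eval (N : ℝ) * t w N := by
        have e0 : ∀ u, (R u).eval (N : ℝ) * z u N = ∑ w ∈ S',
            ((if w.reverse = u then (-1 : ℝ) ^ w.length * (P w).eval (N : ℝ) * z u N else 0) +
              (if u ∈ T w then c w u * (P w).eval (N : ℝ) * z u N else 0)) := by
          intro u
          rw [hR]
          simp only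
          rw [eval_finset_sum, sum_mul]
          refine Finset.sum_congr rfl fun w _ => ?_
          rw [eval_add, add_mul]
          congr 1
          · split_ifs <;> simp
          · split_ifs <;> simp
        rw [Finset.sum_congr rfl fun u _ => e0 u, Finset.sum_comm]
        refine Finset.sum_congr rfl fun w hw => ?_
        rw [(hTc w (hSS w hw).1).2 N, sum_add_distrib, mul_add, mul_sum]
        congr 1
        · rw [Finset.sum_ite_eq U w.reverse, if_pos]
          · ring
          · rw [hU]
            exact mem_union_left _ (mem_image_of_mem _ hw)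
        · rw [← Finset.sum_filter]
          have h1 : U.filter (fun u => u ∈ T w) = T w := by
            ext u
            rw [mem_filter, hU]
            constructor
            · exact fun hh => hh.2
            · exact fun hh => ⟨mem_union_right _ (mem_biUnion.2 ⟨w, hw, hh⟩), hh⟩
          rw [h1]
          refine Finset.sum_congr rfl fun v _ => ?_
          ring
      rw [key, ← hN, hS', Finset.sum_filter]
      refine Finset.sum_congr rfl fun w _ => ?_
      split_ifs with hw
      · rfl
      · rw [not_not] at hw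
        rw [hw, eval_zero, zero_mul]
  have h0 : w0.reverse ∈ U := by
    rw [hU]
    exact mem_union_left _ (mem_image_of_mem _ hw0)
  have h1 := hR0 _ h0
  rw [hR] at h1
  simp only at h1
  rw [Finset.sum_eq_single w0] at h1
  · rw [if_pos rfl, if_neg, add_zero] at h1
    · rcases mul_eq_zero.1 h1 with h2 | h2
      · rw [C_eq_zero] at h2
        exact pow_ne_zero _ (by norm_num) h2
      · exact (hSS w0 hw0).2 h2
    · intro hh
      have := ((hTc w0 (hSS w0 hw0).1).1 _ hh).1
      simp at this
  · intro w hw hne'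
    rw [if_neg, if_neg, add_zero]
    · intro hh
      have h2 := ((hTc w (hSS w hw).1).1 _ hh).1
      have h3 := hmax w hw
      rw [List.length_reverse] at h2
      omega
    · intro hh
      exact hne' (List.reverse_injective hh)
  · intro hh
    exact absurd hw0 hh

end Pool.Agent.V7H63.DH
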